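import Pool.Agent.helper44.NLT.Spec

set_option autoImplicit false

open Complex Metric Set Filter Topology MeasureTheory MPS
open Pool.Agent.helper98.ILF Pool.Agent.helper16.Multibrot

noncomputable section

namespace NLT

theorem CMB (hCNV : CNV_stmt) (hCSU : CSU_stmt) (hCBK : CBK_stmt) : CMB_stmt := by
  intro n c c' Ψ h
  by_contra hc'
  have hT : Tendsto (fun k : ℕ => ‖(fun z : ℂ => z ^ n + c')^[k] 0‖) atTop atTop := by
    by_contra h2
    exact hc' h2
  obtain ⟨R, hR⟩ := hCSU n c c' Ψ h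
  obtain ⟨k, hk⟩ := (hT.eventually_ge_atTop R).exists
  have key : ∀ m : ℕ, m ≤ k → ∃ z ∉ filled n c, Ψ z = (fun z : ℂ => z ^ n + c')^[k - m] 0 := by
    intro m
    induction m with
    | zero => intro _; exact hR _ hk
    | succ m ih =>
      intro hm
      obtain ⟨u, hu, hu2⟩ := ih (by omega)
      refine hCBK n c c' Ψ h _ ⟨u, hu, ?_⟩
      rw [hu2]
      have h3 : k - m = (k - (m + 1)) + 1 := by omega
      rw [h3, Function.iterate_succ_apply']
  obtain ⟨z, hz, hz2⟩ := key k le_rfl
  rw [Nat.sub_self] at hz2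
  exact (hCNV n c c' Ψ h z hz).1 (by simpa using hz2)

end NLT
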